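import Pool.Agent.H480R2.VC.Main

set_option autoImplicit false

/-!
The perfect-set form of the Vaught conjecture for classes of structures closed under clique covers
and for the clique-guarded negation fragment of `L_{omega_1 omega}`.
-/

namespace Pool.Agent.Results.MP_5df2c5_lc.CliqueGuarded

open FirstOrder Set Pool.Agent.H480R2.VC

/-- The interpretation of the relation symbols given by a structure on the natural numbers. -/
def rel {L : FirstOrder.Language.{0, 0}} (S : L.Structure ℕ) : Interp L ℕ :=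
  fun n R t => @FirstOrder.Language.Structure.RelMap L ℕ S n R t

/-- Truth of a sentence in a structure on the natural numbers. -/
def Holds {L : FirstOrder.Language.{0, 0}} (S : L.Structure ℕ) (φ : Fm L) : Prop :=
  ∀ a : ℕ → ℕ, Fm.Sat (rel S) φ a

/-- A sentence of the clique-guarded negation fragment of `L_{omega_1 omega}`. -/
def Sentence {L : FirstOrder.Language.{0, 0}} (φ : Fm L) : Prop :=
  Fm.Guarded φ ∧ Fm.fv φ = ∅

/-- The code of a structure on the natural numbers. -/
noncomputable def code {L : FirstOrder.Language.{0, 0}} (S : L.Structure ℕ) : Code L := ofI (rel S)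

theorem result : ∀ (L : FirstOrder.Language.{0, 0}), Countable L.Symbols → L.IsRelational →
    ∀ K : Set (Code L), MeasurableSet K →
      (∀ c ∈ K, ∀ c' : Code L, ∀ π : ℕ → ℕ, Cover (toI c') (toI c) π → c' ∈ K) →
    ∀ (T : L.Theory) (Ψ : Set (Fm L)), Ψ.Countable → (∀ ψ ∈ Ψ, Sentence ψ) →
      (∀ σ ∈ T, ∃ φ : Fm L, Sentence φ ∧ ∀ S : L.Structure ℕ,
        @FirstOrder.Language.Sentence.Realize L ℕ S σ ↔ Holds S φ) →
      (∃ g : ℕ → L.Structure ℕ, ∀ S : L.Structure ℕ, code S ∈ K →
          @FirstOrder.Language.Theory.Model L ℕ S T → (∀ ψ ∈ Ψ, Holds S ψ) →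
            ∃ n : ℕ, Nonempty (@FirstOrder.Language.Equiv L ℕ ℕ S (g n))) ∨
      (∃ f : (ℕ → Bool) → L.Structure ℕ,
          (∀ x : ℕ → Bool, code (f x) ∈ K ∧ @FirstOrder.Language.Theory.Model L ℕ (f x) T ∧
            ∀ ψ ∈ Ψ, Holds (f x) ψ) ∧
          (∀ x y : ℕ → Bool,
              Nonempty (@FirstOrder.Language.Equiv L ℕ ℕ (f x) (f y)) → x = y) ∧
          (∀ (n : ℕ) (R : L.Relations n) (a : Fin n → ℕ),
              IsClopen {x : ℕ → Bool | @FirstOrder.Language.Structure.RelMap L ℕ (f x) n R a})) := by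
  intro L hL hR
  classical
  have hRc : ∀ n, Countable (L.Relations n) := by
    intro n
    have hinj : Function.Injective
        (fun R : L.Relations n => (Sum.inr ⟨n, R⟩ : L.Symbols)) := by
      intro R R' h
      simpa using h
    exact hinj.countable
  intro K0 hK0 hcl0 T Ψ hΨ hΨs hT
  -- countably many sentences
  have hsent : Countable L.Sentence := by
    have h1 : Cardinal.mk (Σ n, L.BoundedFormula Empty n) ≤ Cardinal.aleph0 := by
      refine FirstOrder.Language.BoundedFormula.card_le.trans ?_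
      simp only [max_le_iff, le_refl, true_and]
      have : L.card ≤ Cardinal.aleph0 := Cardinal.mk_le_aleph0_iff.2 hL
      simpa using this
    have h2 : Countable (Σ n, L.BoundedFormula Empty n) := Cardinal.mk_le_aleph0_iff.1 h1
    have hinj : Function.Injective
        (fun σ : L.Sentence => (⟨0, σ⟩ : Σ n, L.BoundedFormula Empty n)) := by
      intro σ σ' h
      simpa using h
    exact hinj.countable
  choose F hF using hT
  let A : Set (Fm L) := Ψ ∪ {φ | ∃ σ, ∃ hσ : σ ∈ T, F σ hσ = φ}
  have hAc : A.Countable := by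
    refine hΨ.union ?_
    have : {φ | ∃ σ, ∃ hσ : σ ∈ T, F σ hσ = φ} =
        Set.range (fun σ : T => F σ.1 σ.2) := by
      ext φ
      constructor
      · rintro ⟨σ, hσ, h⟩; exact ⟨⟨σ, hσ⟩, h⟩
      · rintro ⟨σ, h⟩; exact ⟨σ.1, σ.2, h⟩
    rw [this]
    exact countable_range _
  have hAs : ∀ φ ∈ A, Sentence φ := by
    rintro φ (h | ⟨σ, hσ, rfl⟩)
    · exact hΨs φ h
    · exact (hF σ hσ).1
  have hmod : ∀ S : L.Structure ℕ, (∀ φ ∈ A, Holds S φ) ↔
      (@FirstOrder.Language.Theory.Model L ℕ S T ∧ ∀ ψ ∈ Ψ, Holds S ψ) := by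
    intro S
    constructor
    · intro h
      refine ⟨⟨fun σ hσ => ((hF σ hσ).2 S).2 ?_⟩, fun ψ hψ => h ψ (Or.inl hψ)⟩
      exact h _ (Or.inr ⟨σ, hσ, rfl⟩)
    · rintro ⟨h2, h3⟩ ψ (hψ | ⟨σ, hσ, rfl⟩)
      · exact h3 ψ hψ
      · exact ((hF σ hσ).2 S).1 (h2.realize_of_mem σ hσ)
  -- structures and codes
  let str : Code L → L.Structure ℕ := fun c =>
    { funMap := fun {n} f => (hR n).elim f
      RelMap := fun {n} R t => c ⟨n, R, t⟩ = true }
  have hstr : ∀ c : Code L, rel (str c) = toI c := fun c => rfl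
  have hcd : ∀ S : L.Structure ℕ, toI (code S) = rel S := fun S => toI_ofI _
  have hcs : ∀ c : Code L, code (str c) = c := by
    intro c
    funext p
    rw [Bool.eq_iff_iff]
    simp only [code, ofI, decide_eq_true_eq]
    exact Iff.rfl
  let K1 : Set (Code L) := {c | ∀ φ ∈ A, ∀ a : ℕ → ℕ, Fm.Sat (toI c) φ a}
  -- measurability
  have hms : ∀ (φ : Fm L) (a : ℕ → ℕ), MeasurableSet {c : Code L | Fm.Sat (toI c) φ a} := by
    have hrel : ∀ (n : ℕ) (R : L.Relations n) (t : Fin n → ℕ),
        MeasurableSet {c : Code L | toI c n R t} := by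
      intro n R t
      have h := measurable_pi_apply (X := fun _ : (Σ n, L.Relations n × (Fin n → ℕ)) => Bool)
        (⟨n, R, t⟩ : Σ n, L.Relations n × (Fin n → ℕ))
      exact h (measurableSet_singleton true)
    have hadj : ∀ x y : ℕ, MeasurableSet {c : Code L | Adj (toI c) x y} := by
      intro x y
      have : {c : Code L | Adj (toI c) x y} = ⋃ n, ⋃ R : L.Relations n, ⋃ t : Fin n → ℕ,
          {c : Code L | toI c n R t ∧ x ∈ range t ∧ y ∈ range t} := by
        ext c; simp [Adj]
      rw [this]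
      refine MeasurableSet.iUnion fun n => MeasurableSet.iUnion fun R =>
        MeasurableSet.iUnion fun t => ?_
      exact (hrel n R t).inter (MeasurableSet.const _)
    intro φ
    induction φ with
    | eq i j => intro a; exact MeasurableSet.const _
    | rel R v => intro a; exact hrel _ R _
    | all f ih =>
      intro a
      have : {c : Code L | Fm.Sat (toI c) (Fm.all f) a} =
          ⋂ k, {c : Code L | Fm.Sat (toI c) (f k) a} := by
        ext c; simp [Fm.Sat]
      rw [this]
      exact MeasurableSet.iInter fun k => ih k a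
    | any f ih =>
      intro a
      have : {c : Code L | Fm.Sat (toI c) (Fm.any f) a} =
          ⋃ k, {c : Code L | Fm.Sat (toI c) (f k) a} := by
        ext c; simp [Fm.Sat]
      rw [this]
      exact MeasurableSet.iUnion fun k => ih k a
    | ex i φ ih =>
      intro a
      have : {c : Code L | Fm.Sat (toI c) (Fm.ex i φ) a} =
          ⋃ x : ℕ, {c : Code L | Fm.Sat (toI c) φ (Function.update a i x)} := by
        ext c; simp [Fm.Sat]
      rw [this]
      exact MeasurableSet.iUnion fun x => ih _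
    | neg s φ ih =>
      intro a
      have : {c : Code L | Fm.Sat (toI c) (Fm.neg s φ) a} =
          (⋂ i ∈ s, ⋂ j ∈ s, {c : Code L | a i ≠ a j → Adj (toI c) (a i) (a j)}) ∩
            {c : Code L | Fm.Sat (toI c) φ a}ᶜ := by
        ext c
        simp only [Fm.Sat, Clique, mem_ofPred_eq, mem_inter_iff, mem_iInter, mem_compl_iff,
          forall_mem_image, Finset.mem_coe]
      rw [this]
      refine MeasurableSet.inter (Finset.measurableSet_biInter _ fun i _ =>
        Finset.measurableSet_biInter _ fun j _ => ?_) (ih a).compl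
      by_cases h : a i ≠ a j
      · have : {c : Code L | a i ≠ a j → Adj (toI c) (a i) (a j)} =
            {c : Code L | Adj (toI c) (a i) (a j)} := by
          ext c; simp [h]
        rw [this]
        exact hadj _ _
      · have : {c : Code L | a i ≠ a j → Adj (toI c) (a i) (a j)} = univ := by
          ext c; simp [h]
        rw [this]
        exact MeasurableSet.univ
  have hK1 : MeasurableSet K1 := by
    have h2 : K1 = ⋂ φ ∈ A, {c : Code L | Fm.Sat (toI c) φ (fun _ => 0)} := by
      ext c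
      simp only [K1, mem_ofPred_eq, mem_iInter]
      constructor
      · intro h φ hφ; exact h φ hφ _
      · intro h φ hφ a
        refine Fm.sat_congr _ φ _ a (fun i hi => ?_) (h φ hφ)
        rw [(hAs φ hφ).2] at hi
        exact hi.elim
    rw [h2]
    exact MeasurableSet.biInter hAc fun φ _ => hms φ _
  have hcl : ∀ c ∈ K0 ∩ K1, ∀ c' : Code L, ∀ π : ℕ → ℕ, Cover (toI c') (toI c) π →
      c' ∈ K0 ∩ K1 := by
    rintro c ⟨hc0, hc⟩ c' π hπ
    refine ⟨hcl0 c hc0 c' π hπ, fun φ hφ a => ?_⟩
    obtain ⟨σ, h1, h2, _⟩ := hπ.sec ∅ (fun x hx => hx.elim)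
    have h3 := (Fm.cover_sat hπ φ (hAs φ hφ).1).2 σ h1 h2 (fun _ => 0) (hc φ hφ _)
    refine Fm.sat_congr _ φ _ a (fun i hi => ?_) h3
    rw [(hAs φ hφ).2] at hi
    exact hi.elim
  have hIso1 : ∀ (S : L.Structure ℕ) (c : Code L), IsoI (rel S) (toI c) →
      Nonempty (@FirstOrder.Language.Equiv L ℕ ℕ S (str c)) := by
    rintro S c ⟨g, hg⟩
    refine ⟨@FirstOrder.Language.Equiv.mk L ℕ ℕ S (str c) g ?_ ?_⟩
    · intro n f
      exact (hR n).elim f
    · intro n R t
      exact (hg n R t).symm
  have hIso2 : ∀ (c c' : Code L), Nonempty (@FirstOrder.Language.Equiv L ℕ ℕ (str c) (str c')) →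
      IsoI (toI c) (toI c') := by
    rintro c c' ⟨g⟩
    exact ⟨@FirstOrder.Language.Equiv.toEquiv L ℕ ℕ (str c) (str c') g, fun n R t =>
      (@FirstOrder.Language.Equiv.map_rel' L ℕ ℕ (str c) (str c') g n R t).symm⟩
  rcases main (K0 ∩ K1) (hK0.inter hK1) hcl with ⟨g, hg⟩ | ⟨f, hf1, hf2, hf3⟩
  · left
    refine ⟨fun n => str (g n), fun S hS0 hS1 hS2 => ?_⟩
    obtain ⟨n, hn⟩ := hg (code S) (by
      refine ⟨hS0, fun φ hφ a => ?_⟩
      rw [hcd]
      exact (hmod S).2 ⟨hS1, hS2⟩ φ hφ a)
    rw [hcd] at hn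
    exact ⟨n, hIso1 S _ hn⟩
  · right
    refine ⟨fun x => str (f x), fun x => ⟨by rw [hcs]; exact (hf2 x).1,
        (hmod _).1 (fun φ hφ a => (hf2 x).2 φ hφ a)⟩,
      fun x y h => hf3 x y (hIso2 _ _ h), fun n R a => ?_⟩
    have h1 : Continuous (fun x => f x ⟨n, R, a⟩) := (continuous_apply _).comp hf1
    exact (isClopen_discrete {true}).preimage h1

end Pool.Agent.Results.MP_5df2c5_lc.CliqueGuarded
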