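import Pool.Agent.H533R2.VS.All2

set_option autoImplicit false

/-!
Vaught's conjecture, in perfect-set form for Borel classes of countable structures, is preserved by
generalised sums.
-/

namespace Pool.Agent.Results.MP_5df2c5_lc.GeneralisedSums

/-- Relational structures on `ℕ` with relations of arities `a 0, a 1, ...`. -/
abbrev Str (a : ℕ → ℕ) : Type := (i : ℕ) → (Fin (a i) → ℕ) → Bool

/-- Structures with further unary predicates. -/
abbrev UStr (a : ℕ → ℕ) : Type := Str a × (ℕ → ℕ → Bool)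

/-- Isomorphism of structures. -/
def Iso {a : ℕ → ℕ} (x y : Str a) : Prop :=
  ∃ σ : Equiv.Perm ℕ, ∀ (i : ℕ) (v : Fin (a i) → ℕ), y i (⇑σ ∘ v) = x i v

/-- Isomorphism of structures with unary predicates. -/
def UIso {a : ℕ → ℕ} (x y : UStr a) : Prop :=
  ∃ σ : Equiv.Perm ℕ, (∀ (i : ℕ) (v : Fin (a i) → ℕ), y.1 i (⇑σ ∘ v) = x.1 i v) ∧
    ∀ i u, y.2 i (σ u) = x.2 i u

/-- The class `V` satisfies Vaught's conjecture, in perfect-set form: every isomorphism-invariant
Borel subclass `B` of `V` has countably many isomorphism types, or there is a continuous family of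
pairwise non-isomorphic members of `B` indexed by the Cantor space. -/
def Vaught {a : ℕ → ℕ} (V : Str a → Prop) : Prop :=
  ∀ B : Set (Str a), MeasurableSet B → (∀ x y, Iso x y → (x ∈ B ↔ y ∈ B)) → (∀ x ∈ B, V x) →
    (∃ f : ℕ → Str a, ∀ x ∈ B, ∃ n, Iso (f n) x) ∨
    (∃ g : (ℕ → Bool) → Str a, Continuous g ∧ (∀ c, g c ∈ B) ∧ ∀ c d, Iso (g c) (g d) → c = d)

/-- The same for the isomorphism-invariant Borel classes of expansions of members of `V` by
countably many unary predicates. -/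
def UVaught {a : ℕ → ℕ} (V : Str a → Prop) : Prop :=
  ∀ B : Set (UStr a), MeasurableSet B → (∀ x y, UIso x y → (x ∈ B ↔ y ∈ B)) →
    (∀ x ∈ B, V x.1) →
    (∃ f : ℕ → UStr a, ∀ x ∈ B, ∃ n, UIso (f n) x) ∨
    (∃ g : (ℕ → Bool) → UStr a, Continuous g ∧ (∀ c, g c ∈ B) ∧
      ∀ c d, UIso (g c) (g d) → c = d)

/-- The tuple `(u, v)`. -/
def pair {n : ℕ} (u v : ℕ) : Fin n → ℕ := fun j => if j.val = 0 then u else v

/-- `x` is a generalised sum of blocks over an index structure. The relation number `ε` is an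
equivalence relation, its classes are the blocks. The relations `i ≠ ε` with `k i = false` hold
only for tuples inside one block; the relations `i ≠ ε` with `k i = true` depend only on the
blocks of the entries. Every infinite block, with the relations of the first kind and transported
to `ℕ` by any bijection `e`, is in `V₂`; the structure of the blocks, with the relations of the
second kind, if there are infinitely many blocks, is in `V₁` (`e` is any enumeration of a system of
representatives). -/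
structure GenSum {a : ℕ → ℕ} (ε : ℕ) (k : ℕ → Bool) (V₁ V₂ : Str a → Prop) (x : Str a) :
    Prop where
  refl : ∀ u, x ε (pair u u) = true
  symm : ∀ u v, x ε (pair u v) = true → x ε (pair v u) = true
  trans : ∀ u v w, x ε (pair u v) = true → x ε (pair v w) = true → x ε (pair u w) = true
  inside : ∀ i, i ≠ ε → k i = false → ∀ t, x i t = true → ∀ j l, x ε (pair (t j) (t l)) = true
  across : ∀ i, i ≠ ε → k i = true → ∀ t t' : Fin (a i) → ℕ,
    (∀ j, x ε (pair (t j) (t' j)) = true) → x i t = x i t'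
  blocks : ∀ (u : ℕ) (e : ℕ → ℕ), Function.Injective e →
    (∀ z, x ε (pair u z) = true ↔ ∃ n, e n = z) →
    V₂ (fun i v => if i ≠ ε ∧ k i = false then x i (e ∘ v) else false)
  index : ∀ e : ℕ → ℕ, (∀ m n, x ε (pair (e m) (e n)) = true ↔ m = n) →
    (∀ z, ∃ n, x ε (pair (e n) z) = true) →
    V₁ (fun i v => if i ≠ ε ∧ k i = true then x i (e ∘ v) else false)

/-- `x` is an ordered sum, over an arbitrary linear order, of finite structures and of infinite
structures in `V`: the relation number `ε` is a strict weak order and the other relations hold only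
for tuples inside one incomparability class. -/
structure OrdSum {a : ℕ → ℕ} (ε : ℕ) (V : Str a → Prop) (x : Str a) : Prop where
  irrefl : ∀ u, x ε (pair u u) = false
  trans : ∀ u v w, x ε (pair u v) = true → x ε (pair v w) = true → x ε (pair u w) = true
  weak : ∀ u v w, x ε (pair u w) = true → x ε (pair u v) = true ∨ x ε (pair v w) = true
  inside : ∀ i, i ≠ ε → ∀ t, x i t = true → ∀ j l, x ε (pair (t j) (t l)) = false
  blocks : ∀ (u : ℕ) (e : ℕ → ℕ), Function.Injective e →
    (∀ z, (x ε (pair z u) = false ∧ x ε (pair u z) = false) ↔ ∃ n, e n = z) →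
    V (fun i v => if i ≠ ε then x i (e ∘ v) else false)

/-- The Gaifman graph of a structure on `ℕ`. -/
def gaifman {a : ℕ → ℕ} (x : Str a) : SimpleGraph ℕ where
  Adj u v := u ≠ v ∧ ∃ i, ∃ t : Fin (a i) → ℕ, x i t = true ∧ u ∈ Set.range t ∧ v ∈ Set.range t
  symm := ⟨by
    rintro u v ⟨h, i, t, h1, h2, h3⟩
    exact ⟨h.symm, i, t, h1, h3, h2⟩⟩
  loopless := ⟨fun u h => h.1 rfl⟩

/-- `G` contains a subdivision of the infinite complete graph `K_ℵ₀`. -/
def HasInfiniteCliqueSubdivision (G : SimpleGraph ℕ) : Prop :=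
  ∃ v : ℕ → ℕ, Function.Injective v ∧ ∃ P : ∀ i j, G.Walk (v i) (v j),
    (∀ i j, i < j → (P i j).IsPath) ∧
    (∀ i j k, i < j → v k ∈ (P i j).support → k = i ∨ k = j) ∧
    (∀ i j i' j', i < j → i' < j' → (i, j) ≠ (i', j') → ∀ x, x ∈ (P i j).support →
      x ∈ (P i' j').support → ∃ k, x = v k)

/-- Only binary relations are nonempty, and every substructure with three or four points has a
nontrivial module, that is, a set of at least two and not all points such that no relation
distinguishes its points from outside. -/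
def Decomposable {a : ℕ → ℕ} (x : Str a) : Prop :=
  (∀ i, a i ≠ 2 → ∀ t, x i t = false) ∧
  ∀ F : Finset ℕ, F.card = 3 ∨ F.card = 4 → ∃ X ⊆ F, 1 < X.card ∧ X.card < F.card ∧
    ∀ u ∈ X, ∀ v ∈ X, ∀ w ∈ F, w ∉ X → ∀ i, a i = 2 →
      x i (pair u w) = x i (pair v w) ∧ x i (pair w u) = x i (pair w v)

/-- Relabelling of a structure by a permutation. -/
def act {a : ℕ → ℕ} (σ : Equiv.Perm ℕ) (x : Str a) : Str a := fun i v => x i (⇑σ.symm ∘ v)

/-- The classes of structures (in all countable languages) obtained from the structures without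
infinite clique subdivision and the completely decomposable structures by ordered sums, generalised
sums, unions and canonical expansions: `c` is a Borel map that commutes with relabelling and that
has a continuous left inverse `d` commuting with relabelling; for example, `c` adds relations
definable in `L_ω₁ω` to the structure. -/
inductive Good : (a : ℕ → ℕ) → (Str a → Prop) → Prop
  | sparse (a : ℕ → ℕ) : Good a fun x => ¬ HasInfiniteCliqueSubdivision (gaifman x)
  | decomposable (a : ℕ → ℕ) : Good a Decomposable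
  | ordSum (a : ℕ → ℕ) (ε : ℕ) (V : Str a → Prop) : a ε = 2 → Good a V → Good a (OrdSum ε V)
  | genSum (a : ℕ → ℕ) (ε : ℕ) (k : ℕ → Bool) (V₁ V₂ : Str a → Prop) : (∀ i, 0 < a i) →
      a ε = 2 → Good a V₁ → Good a V₂ → Good a (GenSum ε k V₁ V₂)
  | union (a : ℕ → ℕ) (V W : Str a → Prop) : Good a V → Good a W → Good a fun x => V x ∨ W x
  | expansion (a b : ℕ → ℕ) (c : Str a → Str b) (d : Str b → Str a) (V : Str b → Prop) :
      Measurable c → Continuous d → (∀ σ x, c (act σ x) = act σ (c x)) →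
      (∀ σ z, d (act σ z) = act σ (d z)) → Good b V → Good a fun x => V (c x) ∧ d (c x) = x

theorem genSum_eq {a : ℕ → ℕ} (ε : ℕ) (k : ℕ → Bool) (V₁ V₂ : Str a → Prop) :
    GenSum ε k V₁ V₂ = H533R2.VS.IsSum ε k V₁ V₂ := by
  funext x
  exact propext ⟨fun h => ⟨h.refl, h.symm, h.trans, h.inside, h.across, h.blocks, h.index⟩,
    fun h => ⟨h.refl, h.symm, h.trans, h.inside, h.across, h.blocks, h.index⟩⟩

theorem ordSum_eq {a : ℕ → ℕ} (ε : ℕ) (V : Str a → Prop) :
    OrdSum ε V = H533R2.VS.IsOSum ε V := by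
  funext x
  exact propext ⟨fun h => ⟨h.irrefl, h.trans, h.weak, h.inside, h.blocks⟩,
    fun h => ⟨h.irrefl, h.trans, h.weak, h.inside, h.blocks⟩⟩

theorem decomposable_eq {a : ℕ → ℕ} : (Decomposable : Str a → Prop) = H533R2.VS.DecG := by
  funext x
  refine propext ⟨fun h => ⟨h.1, fun F hF => ?_⟩, fun h => ⟨h.1, fun F hF => ?_⟩⟩
  · obtain ⟨X, hX1, hX2, hX3, hX4⟩ := h.2 F hF
    refine ⟨X, hX1, hX2, hX3, fun u hu v hv w hw hwX i => ?_⟩
    show (if a i = 2 then _ else _) = (if a i = 2 then _ else _) ∧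
      (if a i = 2 then _ else _) = (if a i = 2 then _ else _)
    by_cases hai : a i = 2
    · simp only [if_pos hai]
      exact hX4 u hu v hv w hw hwX i hai
    · simp only [if_neg hai]
      exact ⟨trivial, trivial⟩
  · obtain ⟨X, hX1, hX2, hX3, hX4⟩ := h.2 F hF
    refine ⟨X, hX1, hX2, hX3, fun u hu v hv w hw hwX i hai => ?_⟩
    have h1 : (if a i = 2 then x i (H533R2.VS.p2 u w) else false) =
        (if a i = 2 then x i (H533R2.VS.p2 v w) else false) ∧
      (if a i = 2 then x i (H533R2.VS.p2 w u) else false) =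
        (if a i = 2 then x i (H533R2.VS.p2 w v) else false) := hX4 u hu v hv w hw hwX i
    simp only [if_pos hai] at h1
    exact h1

/-- Vaught's conjecture (perfect-set form, Borel classes) is preserved by generalised sums and by
ordered sums, and it holds for all classes in `Good`. -/
theorem result :
    (∀ a : ℕ → ℕ, (∀ i, 0 < a i) → ∀ ε : ℕ, a ε = 2 →
      ∀ (k : ℕ → Bool) (V₁ V₂ : Str a → Prop), UVaught V₁ →
        (Vaught V₂ → Vaught (GenSum ε k V₁ V₂)) ∧ (UVaught V₂ → UVaught (GenSum ε k V₁ V₂))) ∧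
    (∀ (a : ℕ → ℕ) (ε : ℕ), a ε = 2 → ∀ V : Str a → Prop,
      (Vaught V → Vaught (OrdSum ε V)) ∧ (UVaught V → UVaught (OrdSum ε V))) ∧
    (∀ (a : ℕ → ℕ) (V : Str a → Prop), Good a V → Vaught V ∧ UVaught V) := by
  have h1 : ∀ a : ℕ → ℕ, (∀ i, 0 < a i) → ∀ ε : ℕ, a ε = 2 →
      ∀ (k : ℕ → Bool) (V₁ V₂ : Str a → Prop), UVaught V₁ →
        (Vaught V₂ → Vaught (GenSum ε k V₁ V₂)) ∧
          (UVaught V₂ → UVaught (GenSum ε k V₁ V₂)) := by
    intro a ha ε hε k V₁ V₂ hV₁
    rw [genSum_eq]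
    exact ⟨fun hV₂ => H533R2.VS.vs_plain_sum a ha ε hε k V₁ V₂ hV₁ hV₂,
      fun hV₂ => H533R2.VS.vs_clo a ha ε hε k V₁ V₂ hV₁ hV₂⟩
  have h2 : ∀ (a : ℕ → ℕ) (ε : ℕ), a ε = 2 → ∀ V : Str a → Prop,
      (Vaught V → Vaught (OrdSum ε V)) ∧ (UVaught V → UVaught (OrdSum ε V)) := by
    intro a ε hε V
    rw [ordSum_eq]
    exact ⟨fun hV => H533R2.VS.pln_ord a ε hε V hV, fun hV => H533R2.VS.vs_ord a ε hε V hV⟩
  refine ⟨h1, h2, fun a V hV => ?_⟩
  have key : UVaught V ∧ H533R2.VS.Coan V ∧ H533R2.VS.Inv V := by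
    induction hV with
    | sparse a => exact ⟨H533R2.VS.vs_sparse a, H533R2.VS.vs_ksp a⟩
    | decomposable a =>
      rw [decomposable_eq]
      exact ⟨H533R2.VS.vs_dec a, H533R2.VS.vs_kde a⟩
    | ordSum a ε V hε _ ih =>
      refine ⟨(h2 a ε hε V).2 ih.1, ?_⟩
      rw [ordSum_eq]
      exact H533R2.VS.vs_kos a ε V ih.2.1
    | genSum a ε k V₁ V₂ ha hε _ _ ih1 ih2 =>
      refine ⟨(h1 a ha ε hε k V₁ V₂ ih1.1).2 ih2.1, ?_⟩
      rw [genSum_eq]
      exact ⟨H533R2.VS.vs_kis a ε k V₁ V₂ ih1.2.1 ih2.2.1, H533R2.VS.vs_nis a ε k V₁ V₂⟩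
    | union a V W _ _ ih1 ih2 =>
      exact ⟨H533R2.VS.vs_uni a V W ih1.1 ih2.1 ih1.2.1 ih2.2.1 ih1.2.2 ih2.2.2,
        H533R2.VS.vs_kun a V W ih1.2.1 ih2.2.1 ih1.2.2 ih2.2.2⟩
    | expansion a b c d V hc hd hca hda _ ih =>
      exact ⟨H533R2.VS.vs_exc a b c d ⟨hc, hd, hca, hda⟩ V ih.1,
        H533R2.VS.vs_exk a b c d ⟨hc, hd, hca, hda⟩ V ih.2.1 ih.2.2⟩
  exact ⟨H533R2.VS.vs_plain a V key.1, key.1⟩

end Pool.Agent.Results.MP_5df2c5_lc.GeneralisedSums
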