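import Pool.Agent.H623R2.VE.FV

set_option autoImplicit false

/-!
Vaught's conjecture, with a perfect set of models, for every first-order theory `T` in a countable
relational language such that for each model `M` of `T` there is a countable number `κ ≥ 2` for
which the disjoint union of `κ` copies of `M` is a model of `T`; the complete first-order theory of
the disjoint union of infinitely many copies of an arbitrary structure has this property.
-/

namespace Pool.Agent.Results.MP_5df2c5_lc.ProperMultiples

open FirstOrder FirstOrder.Language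

/-- The disjoint union of copies of the structure `S`, one copy for each element of `A`: a relation
holds of a tuple if the tuple lies in one copy and the relation holds there. -/
@[reducible] def copies {L : FirstOrder.Language.{0, 0}} [L.IsRelational] {M : Type} (A : Type)
    (S : L.Structure M) : L.Structure (A × M) where
  funMap f := isEmptyElim f
  RelMap R t := (∀ k l, (t k).1 = (t l).1) ∧ S.RelMap R (fun k => (t k).2)

theorem result (L : FirstOrder.Language.{0, 0}) [L.IsRelational] (hL : Countable L.Symbols) :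
    (∀ T : L.Theory,
      (∀ S : L.Structure ℕ, @Theory.Model L ℕ S T → ∃ A : Type, Countable A ∧ Nontrivial A ∧
        @Theory.Model L (A × ℕ) (copies A S) T) →
      (∃ S : Set (FirstOrder.Language.Theory.ModelType.{0, 0, 0} T), S.Countable ∧
        ∀ M : FirstOrder.Language.Theory.ModelType.{0, 0, 0} T,
          Countable M → Infinite M → ∃ N ∈ S, Nonempty (FirstOrder.Language.Equiv L M N)) ∨
      (∃ F : (ℕ → Bool) → L.Structure ℕ, (∀ x, @Theory.Model L ℕ (F x) T) ∧
        (∀ (n : ℕ) (R : L.Relations n) (t : Fin n → ℕ), IsClopen {x | (F x).RelMap R t}) ∧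
        ∀ x y, Nonempty (@FirstOrder.Language.Equiv L ℕ ℕ (F x) (F y)) → x = y)) ∧
    (∀ (M : Type) (S₀ : L.Structure M) (S : L.Structure ℕ),
      @Theory.Model L ℕ S {φ | @Sentence.Realize L (ℕ × M) (copies ℕ S₀) φ} →
      @Theory.Model L (Bool × ℕ) (copies Bool S)
        {φ | @Sentence.Realize L (ℕ × M) (copies ℕ S₀) φ}) := by
  refine ⟨fun T hT => ?_, fun M S₀ S hS => Pool.Agent.H623R2.VE.closed_th S₀ S hS⟩
  rcases Pool.Agent.H623R2.VE.fo_dich T hT with ⟨C, hC, hC2⟩ | ⟨F, h1, h2, h3⟩
  · left
    refine ⟨{N | ∃ S ∈ C, ∃ h : @Theory.Model L ℕ S T,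
      N = @Theory.ModelType.of L T ℕ S h inferInstance}, ?_, ?_⟩
    · have hsub : {N | ∃ S ∈ C, ∃ h : @Theory.Model L ℕ S T,
          N = @Theory.ModelType.of L T ℕ S h inferInstance} ⊆
          ⋃ S ∈ C, {N | ∃ h : @Theory.Model L ℕ S T,
            N = @Theory.ModelType.of L T ℕ S h inferInstance} := by
        rintro N ⟨S, hS, h, e⟩
        exact Set.mem_biUnion hS ⟨h, e⟩
      refine (hC.biUnion fun S _ => Set.Subsingleton.countable ?_).mono hsub
      rintro N ⟨h, e⟩ N' ⟨h', e'⟩
      rw [e, e']
    · intro M hMc hMi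
      obtain ⟨e⟩ : Nonempty (M ≃ ℕ) := nonempty_equiv_of_countable
      let S : L.Structure ℕ :=
        { funMap := fun f => isEmptyElim f
          RelMap := fun R t => M.struc.RelMap R (fun k => e.symm (t k)) }
      have hS : Pool.Agent.H623R2.VE.RIso M.struc S := by
        refine ⟨e, fun R t => ?_⟩
        show _ ↔ M.struc.RelMap R (fun k => e.symm (e (t k)))
        simp only [Equiv.symm_apply_apply]
      have hSm : @Theory.Model L ℕ S T := hS.model M.is_model
      obtain ⟨S', hS', h⟩ := hC2 S hSm
      have hm : @Theory.Model L ℕ S' T := h.model hSm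
      exact ⟨_, ⟨S', hS', hm, rfl⟩, Pool.Agent.H623R2.VE.RIso.iff.1 (hS.trans h)⟩
  · exact Or.inr ⟨F, h1, h2, fun x y h => h3 x y (Pool.Agent.H623R2.VE.RIso.iff.2 h)⟩

end Pool.Agent.Results.MP_5df2c5_lc.ProperMultiples
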