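import Pool.Agent.H566Y.All

set_option autoImplicit false

/-!
Vaught's conjecture, perfect-set form, for first-order theories whose models with universe `ℕ` form
an `F_σ` set, in countable languages with relation symbols and (possibly infinitely many) constant
symbols; in particular for all theories axiomatised by universal sentences and finitely many
`∃∀` sentences.
-/

namespace Pool.Agent.Results.MP_5df2c5_lc.SigmaTwoTheories

open FirstOrder FirstOrder.Language

/-- The topology on the set of `L`-structures with universe `ℕ` generated by the sets of structures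
in which a given relation holds, or does not hold, of a given tuple, or in which a given function
has a given value at a given tuple. -/
@[reducible] def codeTop (L : FirstOrder.Language.{0, 0}) : TopologicalSpace (L.Structure ℕ) :=
  TopologicalSpace.generateFrom
    ({U | ∃ (n : ℕ) (R : L.Relations n) (t : Fin n → ℕ), U = {S | S.RelMap R t}} ∪
     {U | ∃ (n : ℕ) (R : L.Relations n) (t : Fin n → ℕ), U = {S | ¬ S.RelMap R t}} ∪
     {U | ∃ (n : ℕ) (f : L.Functions n) (t : Fin n → ℕ) (b : ℕ), U = {S | S.funMap f t = b}})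

/-- A countable union of closed sets. -/
def FSigma (L : FirstOrder.Language.{0, 0}) (B : Set (L.Structure ℕ)) : Prop :=
  ∃ F : ℕ → Set (L.Structure ℕ), (∀ k, @IsClosed _ (codeTop L) (F k)) ∧ B = ⋃ k, F k

theorem result (L : FirstOrder.Language.{0, 0}) (hL : Countable L.Symbols)
    (hf : ∀ n, IsEmpty (L.Functions (n + 1))) (T : L.Theory) :
    (FSigma L {S : L.Structure ℕ | @Theory.Model L ℕ S T} →
      (∃ g : ℕ → L.Structure ℕ, ∀ S : L.Structure ℕ, @Theory.Model L ℕ S T →
        ∃ n, Nonempty (@FirstOrder.Language.Equiv L ℕ ℕ S (g n))) ∨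
      (∃ f : (ℕ → Bool) → L.Structure ℕ, (∀ x, @Theory.Model L ℕ (f x) T) ∧
        (∀ x y, Nonempty (@FirstOrder.Language.Equiv L ℕ ℕ (f x) (f y)) → x = y) ∧
        (∀ (n : ℕ) (R : L.Relations n) (t : Fin n → ℕ), IsClopen {x | (f x).RelMap R t}) ∧
        (∀ (n : ℕ) (F : L.Functions n) (t : Fin n → ℕ) (b : ℕ),
          IsOpen {x | (f x).funMap F t = b}))) ∧
    ((∃ T' ⊆ T, T'.Finite ∧ (∀ φ ∈ T', ∃ (m : ℕ) (ψ : L.BoundedFormula Empty m),
        ψ.IsUniversal ∧ φ = ψ.exs) ∧ ∀ φ ∈ T, φ ∈ T' ∨ BoundedFormula.IsUniversal φ) →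
      FSigma L {S : L.Structure ℕ | @Theory.Model L ℕ S T}) :=
  Pool.Agent.H566Y.fin_aux Pool.Agent.H566Y.c_SEM Pool.Agent.H566Y.t_CONV
    Pool.Agent.H566Y.t_FSG Pool.Agent.H566Y.t_UC L hL hf T

end Pool.Agent.Results.MP_5df2c5_lc.SigmaTwoTheories
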